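import Pool.Agent.Helper5.FRD.Goals

/-!
# Project FRD, packet EXTH

The solution of the smaller state gives one of the larger. Adapted from `Helper85.FRC.EXTG`.
-/

set_option autoImplicit false

namespace Pool.Agent.Helper35.FRD.EXTH

open Finset Pool.Agent.Helper5.FRC Pool.Agent.Helper5.FRD

theorem t : Pool.Agent.Helper5.FRD.ExthStmt := by
  intro V _ _ n A Z t p t' hA hT hZA hZ hZ4 hAlg hRed hsol
  obtain ⟨hp, hpn⟩ := hAlg
  obtain ⟨hT', hch, hU⟩ := hRed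
  obtain ⟨P', Y', hY'A, hP', hY', hfix, hodd⟩ := hsol
  classical
  let P : V → V := fun v => if v ∈ Z then p v else P' v
  have hPZ : ∀ v ∈ Z, P v = p v := fun v hv => if_pos hv
  have hPn : ∀ v, v ∉ Z → P v = P' v := fun v hv => if_neg hv
  obtain ⟨W, hWZ, hWp, hW⟩ := hch Y' hY'A
  have hdm : dm t' Y' = 0 := by
    unfold dm
    rw [card_eq_zero, filter_eq_empty_iff]
    intro x hx h
    exact h (hY' x hx).1
  rw [hdm] at hW
  unfold dm at hW
  rw [card_eq_zero, filter_eq_empty_iff] at hW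
  have hYt : ∀ v ∈ Y' ∪ W, t v ∈ Y' ∪ W := fun v hv => by
    have := hW hv
    push Not at this
    exact this
  have hY'sub : ∀ v ∈ Y', v ∈ A ∧ v ∉ Z := fun v hv => by
    have := hY'A hv
    rw [mem_sdiff] at this
    exact this
  have hinY' : ∀ v ∈ Y', v ∈ Y' ∪ W := fun v hv => mem_union_left _ hv
  have hYP : ∀ v ∈ Y' ∪ W, P v ∈ Y' ∪ W := by
    intro v hv
    rcases mem_union.1 hv with hv' | hv'
    · rw [hPn v (hY'sub v hv').2]
      exact hinY' _ (hY' v hv').2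
    · rw [hPZ v (hWZ hv')]
      exact mem_union_right _ (hWp v hv')
  -- the number of fixed points
  have hfx : ∀ X : Finset V, fx P X = fx P' (X \ Z) := by
    intro X
    unfold fx
    congr 1
    ext v
    simp only [mem_filter, mem_sdiff]
    constructor
    · rintro ⟨hv, hPv⟩
      have hvZ : v ∉ Z := fun hvZ => (hp v hvZ).2.2 (by rw [← hPZ v hvZ]; exact hPv)
      rw [hPn v hvZ] at hPv
      exact ⟨⟨hv, hvZ⟩, hPv⟩
    · rintro ⟨⟨hv, hvZ⟩, hPv⟩
      rw [hPn v hvZ]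
      exact ⟨hv, hPv⟩
  -- a closed set contains `Z` or is disjoint to it
  have hSZ : ∀ S : Finset V, Inv n S → (∃ z ∈ Z, z ∈ S) → Z ⊆ S := by
    rintro S hS ⟨z, hz, hzS⟩
    have h := hZ.2.2 (Z ∩ S) inter_subset_left ⟨z, mem_inter.2 ⟨hz, hzS⟩⟩ (by
      intro x hx
      rw [mem_inter] at hx
      exact mem_inter.2 ⟨hZ.2.1 x hx.1, hS x hx.2⟩)
    intro x hx
    rw [← h] at hx
    exact (mem_inter.1 hx).2
  have hinv : ∀ S : Finset V, Inv n S → Inv n (S \ Z) := by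
    intro S hS x hx
    rw [mem_sdiff] at hx ⊢
    refine ⟨hS x hx.1, fun hnx => hx.2 ?_⟩
    have h := Equiv.Perm.perm_symm_on_of_perm_on_finset (f := n) (s := Z)
      (fun y hy => hZ.2.1 y hy) hnx
    simpa using h
  have hodd' : ∀ S : Finset V, Inv n S → Odd S.card → Odd (S \ Z).card := by
    intro S hS hSodd
    by_cases h : ∃ z ∈ Z, z ∈ S
    · have h1 := hSZ S hS h
      have h2 := card_sdiff_add_card_eq_card h1
      rw [← h2] at hSodd
      rw [Nat.even_iff] at hZ4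
      rw [Nat.odd_iff] at hSodd ⊢
      omega
    · push Not at h
      have h1 : S \ Z = S := by
        ext x
        rw [mem_sdiff]
        exact ⟨fun hx => hx.1, fun hx => ⟨hx, fun hxZ => h x hxZ hx⟩⟩
      rw [h1]
      exact hSodd
  -- the edges outside `Y`
  have hcut : ∀ S ⊆ A, Inv n S → dm t' ((S \ Z) \ Y') ≤ dm t (S \ (Y' ∪ W)) := by
    intro S hSA hS
    have h1 := hU (S \ (Y' ∪ W)) (sdiff_subset.trans hSA) (by
      intro y hy hyZ
      rw [mem_sdiff] at hy ⊢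
      refine ⟨hSZ S hS ⟨y, hyZ, hy.1⟩ (hp y hyZ).1, fun h => hy.2 ?_⟩
      have := hYP _ h
      rwa [hPZ _ (hp y hyZ).1, (hp y hyZ).2.1] at this)
    have h2 : (S \ (Y' ∪ W)) \ Z = (S \ Z) \ Y' := by
      ext x
      simp only [mem_sdiff, mem_union, not_or]
      constructor
      · rintro ⟨⟨h3, h4, h5⟩, h6⟩
        exact ⟨⟨h3, h6⟩, h4⟩
      · rintro ⟨⟨h3, h6⟩, h4⟩
        exact ⟨⟨h3, h4, fun h => h6 (hWZ h)⟩, h6⟩
    rwa [h2] at h1
  refine ⟨P, Y' ∪ W, ?_, ?_, fun v hv => ⟨hYt v hv, hYP v hv⟩, ?_, ?_⟩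
  · intro v hv
    rcases mem_union.1 hv with hv' | hv'
    · exact (hY'sub v hv').1
    · exact hZA (hWZ hv')
  · intro v hv
    by_cases hvZ : v ∈ Z
    · rw [hPZ v hvZ, hPZ _ (hp v hvZ).1]
      exact ⟨hZA (hp v hvZ).1, (hp v hvZ).2.1, Or.inr (hpn v hvZ)⟩
    · have h := hP' v (mem_sdiff.2 ⟨hv, hvZ⟩)
      rw [hPn v hvZ, hPn _ (mem_sdiff.1 h.1).2]
      exact ⟨(mem_sdiff.1 h.1).1, h.2⟩
  · intro v hv hPv
    have hvZ : v ∉ Z := fun hvZ => (hp v hvZ).2.2 (by rw [← hPZ v hvZ]; exact hPv)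
    rw [hPn v hvZ] at hPv
    have h := hfix v (mem_sdiff.2 ⟨hv, hvZ⟩) hPv
    refine ⟨hinY' v h.1, ?_⟩
    by_cases hnZ : n v ∈ Z
    · rw [hPZ _ hnZ]
      exact (hp _ hnZ).2.2
    · rw [hPn _ hnZ]
      exact h.2
  · intro S hSA S' hSA' hS hS' hSodd hSodd' hdis
    have h1 := hodd (S \ Z) (sdiff_subset_sdiff hSA le_rfl) (S' \ Z)
      (sdiff_subset_sdiff hSA' le_rfl) (hinv S hS) (hinv S' hS') (hodd' S hS hSodd)
      (hodd' S' hS' hSodd') (disjoint_of_subset_left sdiff_subset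
        (disjoint_of_subset_right sdiff_subset hdis))
    have h2 := hcut S hSA hS
    have h3 := hcut S' hSA' hS'
    rw [hfx A, hfx S, hfx S']
    omega

end Pool.Agent.Helper35.FRD.EXTH
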